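import Pool.Agent.W798.KF.Stm

/-!
# KF-KR: transfer from positive reals to all finite sets of reals, k-fold sums and products
-/

set_option autoImplicit false
set_option linter.unusedSectionVars false

open Finset
open scoped Pointwise

namespace Pool.Agent.W839.KF

open Pool.Agent.W798.KF

lemma sm_mono {A B : Finset ℝ} (h : B ⊆ A) (j : ℕ) : sm B j ⊆ sm A j := by
  induction j with
  | zero => exact h
  | succ j ih => exact add_subset_add h ih

lemma pr_mono {A B : Finset ℝ} (h : B ⊆ A) (j : ℕ) : pr B j ⊆ pr A j := by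
  induction j with
  | zero => exact h
  | succ j ih => exact mul_subset_mul h ih

lemma sm_neg (A : Finset ℝ) (j : ℕ) : sm (-A) j = -(sm A j) := by
  induction j with
  | zero => rfl
  | succ j ih =>
    show -A + sm (-A) j = -(A + sm A j)
    rw [ih, neg_add_rev, add_comm]

lemma pr_neg (A : Finset ℝ) (j : ℕ) : pr (-A) j = pr A j ∨ pr (-A) j = -(pr A j) := by
  induction j with
  | zero => exact Or.inr rfl
  | succ j ih =>
    rcases ih with h | h
    · right
      show -A * pr (-A) j = -(A * pr A j)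
      rw [h, neg_mul]
    · left
      show -A * pr (-A) j = A * pr A j
      rw [h, neg_mul_neg]

lemma card_sm_neg (A : Finset ℝ) (j : ℕ) : (sm (-A) j).card = (sm A j).card := by
  rw [sm_neg, card_neg]

lemma card_pr_neg (A : Finset ℝ) (j : ℕ) : (pr (-A) j).card = (pr A j).card := by
  rcases pr_neg A j with h | h
  · rw [h]
  · rw [h, card_neg]

lemma sm_nonempty {A : Finset ℝ} (h : A.Nonempty) (j : ℕ) : (sm A j).Nonempty := by
  induction j with
  | zero => exact h
  | succ j ih => exact h.add ih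

/-- a set of positive reals with at least a third of the elements and not larger sums and products -/
lemma posPart (A : Finset ℝ) (hA : 3 ≤ A.card) : ∃ B : Finset ℝ, B.Nonempty ∧ (∀ x ∈ B, 0 < x) ∧
    A.card ≤ 3 * B.card ∧ (∀ j, (sm B j).card ≤ (sm A j).card) ∧
      (∀ j, (pr B j).card ≤ (pr A j).card) := by
  classical
  set P := A.filter (fun x => 0 < x) with hP
  set F := A.filter (fun x => x < 0) with hF
  have hcov : A ⊆ (P ∪ F) ∪ {0} := by
    intro x hx
    rw [mem_union, mem_union, mem_singleton, hP, hF, mem_filter, mem_filter]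
    rcases lt_trichotomy x 0 with h | h | h
    · exact Or.inl (Or.inr ⟨hx, h⟩)
    · exact Or.inr h
    · exact Or.inl (Or.inl ⟨hx, h⟩)
  have hc : A.card ≤ P.card + F.card + 1 := by
    have h1 := card_le_card hcov
    have h2 := card_union_le (P ∪ F) ({0} : Finset ℝ)
    have h3 := card_union_le P F
    rw [card_singleton] at h2
    omega
  have hPA : P ⊆ A := filter_subset _ _
  have hFA : F ⊆ A := filter_subset _ _
  rcases le_total F.card P.card with h | h
  · refine ⟨P, card_pos.1 (by omega), fun x hx => (mem_filter.1 hx).2, by omega,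
      fun j => card_le_card (sm_mono hPA j), fun j => card_le_card (pr_mono hPA j)⟩
  · refine ⟨-F, ?_, ?_, ?_, ?_, ?_⟩
    · rw [← card_pos, card_neg]
      omega
    · intro x hx
      rw [mem_neg] at hx
      obtain ⟨y, hy, rfl⟩ := hx
      have := (mem_filter.1 hy).2
      linarith
    · rw [card_neg]
      omega
    · intro j
      rw [card_sm_neg]
      exact card_le_card (sm_mono hFA j)
    · intro j
      rw [card_pr_neg]
      exact card_le_card (pr_mono hFA j)

lemma one_le_ex (j : ℕ) : 1 ≤ ex j := by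
  have hX : (1:ℝ) ≤ 2 ^ j := one_le_pow₀ (by norm_num)
  unfold ex
  set X : ℝ := 2 ^ j with hXd
  have hden : 0 < X * (1854 * X - 1009) := by
    apply mul_pos (by linarith)
    linarith
  rw [le_div_iff₀ hden]
  nlinarith [mul_le_mul hX hX zero_le_one (by linarith : (0:ℝ) ≤ X)]

theorem tKR (h : S_KP) : S_KR := by
  intro j δ hδ
  have hδ' : 0 < min δ 1 := lt_min hδ one_pos
  obtain ⟨c, hc, hP⟩ := h j (min δ 1) hδ'
  have hE := one_le_ex j
  set E : ℝ := ex j with hEd
  have he0 : 0 ≤ E - min δ 1 := by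
    have := min_le_right δ 1
    linarith
  have he1 : E - min δ 1 ≤ E := by linarith
  have he2 : E - δ ≤ E - min δ 1 := by
    have := min_le_left δ 1
    linarith
  set e : ℝ := E - min δ 1 with he
  refine ⟨min c 1 / 3 ^ E, by positivity, ?_⟩
  intro A hA
  have hA1 : 1 ≤ A.card := hA.card_pos
  have hN1 : (1:ℝ) ≤ A.card := by exact_mod_cast hA1
  have hcn : 0 ≤ min c 1 / 3 ^ E := by positivity
  have hstep : min c 1 / 3 ^ E * (A.card : ℝ) ^ (E - δ) ≤
      min c 1 / 3 ^ E * (A.card : ℝ) ^ e :=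
    mul_le_mul_of_nonneg_left (Real.rpow_le_rpow_of_exponent_le hN1 he2) hcn
  refine hstep.trans ?_
  have h3pos : (0:ℝ) < 3 ^ E := by positivity
  rcases Nat.lt_or_ge A.card 3 with h3 | h3
  · -- small sets
    have hN3 : (A.card : ℝ) ≤ 3 := by exact_mod_cast h3.le
    have h1 : (A.card : ℝ) ^ e ≤ 3 ^ E := by
      calc (A.card : ℝ) ^ e ≤ 3 ^ e := Real.rpow_le_rpow (by linarith) hN3 he0
        _ ≤ 3 ^ E := Real.rpow_le_rpow_of_exponent_le (by norm_num) he1
    have h2 : min c 1 / 3 ^ E * (A.card : ℝ) ^ e ≤ 1 := by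
      rw [div_mul_eq_mul_div, div_le_one h3pos]
      calc min c 1 * (A.card : ℝ) ^ e ≤ 1 * (A.card : ℝ) ^ e :=
            mul_le_mul_of_nonneg_right (min_le_right _ _) (by positivity)
        _ ≤ 3 ^ E := by rw [one_mul]; exact h1
    have h4 : (1:ℝ) ≤ ((sm A (j + 1)).card : ℝ) := by
      exact_mod_cast (sm_nonempty hA (j + 1)).card_pos
    exact h2.trans (h4.trans (le_max_left _ _))
  · obtain ⟨B, hB0, hBp, hB3, hBs, hBm⟩ := posPart A h3
    have h7 := hP B hB0 hBp
    have h8 : max ((sm B (j + 1)).card : ℝ) ((pr B (j + 1)).card : ℝ) ≤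
        max ((sm A (j + 1)).card : ℝ) ((pr A (j + 1)).card : ℝ) :=
      max_le_max (by exact_mod_cast hBs (j + 1)) (by exact_mod_cast hBm (j + 1))
    refine le_trans ?_ (h7.trans h8)
    have hB3' : (A.card : ℝ) ≤ 3 * B.card := by exact_mod_cast hB3
    have h9 : (A.card : ℝ) ^ e ≤ 3 ^ E * (B.card : ℝ) ^ e := by
      calc (A.card : ℝ) ^ e ≤ (3 * (B.card : ℝ)) ^ e :=
            Real.rpow_le_rpow (by linarith) hB3' he0
        _ = 3 ^ e * (B.card : ℝ) ^ e := Real.mul_rpow (by norm_num) (by positivity)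
        _ ≤ 3 ^ E * (B.card : ℝ) ^ e :=
            mul_le_mul_of_nonneg_right (Real.rpow_le_rpow_of_exponent_le (by norm_num) he1)
              (by positivity)
    calc min c 1 / 3 ^ E * (A.card : ℝ) ^ e
        ≤ min c 1 / 3 ^ E * (3 ^ E * (B.card : ℝ) ^ e) :=
          mul_le_mul_of_nonneg_left h9 hcn
      _ = min c 1 * (B.card : ℝ) ^ e := by
          field_simp
      _ ≤ c * (B.card : ℝ) ^ e :=
          mul_le_mul_of_nonneg_right (min_le_left _ _) (by positivity)

end Pool.Agent.W839.KF
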